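import Mathlib
import Pool.Agent.H88.HxDefs
import Pool.Agent.H88.Hx6

open Pool.Agent.H88.Hx

theorem Pool.Agent.Results.MP_4ac5ef_an.Yes.result
    {H : Type} [NormedAddCommGroup H] [NormedSpace ℂ H] (J : H →ₗᵢ[ℂ] Linf)
    (hJ : ∀ g : Linf, (∃ h, J h = g) ↔ InHinf g) (Φ : Finset (StrongDual ℂ H))
    (f : kerAll Φ) : IsExposedPt f ↔ ‖f‖ = 1 ∧ 0 < unimod (J f) :=
  ⟨only_if J hJ Φ f, fun h => if_dir J hJ Φ f h.1 h.2⟩
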